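import Pool.Agent.X64.Hex.Geom

/-!
# MP_d99f1b_co, Q1: an optimal 3-plane graph without a partition into a 2-plane graph and a forest

The graph has 14 vertices and 66 edges. Its crossing-free edges form six paths between two poles
`a`, `b`, alternately of length two (with middle vertex `m_i`) and of length four (with inner
vertices `x_i, y_i, z_i`); all six faces are hexagons, and in each face all diagonals except the
long diagonal `m y` are drawn.
-/

namespace Pool.Agent.Results.MP_d99f1b_co.NoForest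

open Pool.Agent.X64.Hex

/-- A graph without self-loops (parallel edges are allowed) together with, for each vertex, a point
of the plane and, for each edge, a list of points. -/
structure PolyGraph (V E : Type) where
  /-- the position of a vertex -/
  pos : V → Plane
  /-- the first end of an edge -/
  fst : E → V
  /-- the second end of an edge -/
  snd : E → V
  /-- the successive points of the polygonal arc of an edge -/
  line : E → List Plane

/-- The polygonal arc through the points of a list is a simple (Jordan) arc. -/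
def SimpleArc : List Plane → Prop
  | p :: q :: l => p ≠ q ∧ segment ℝ p q ∩ arc (q :: l) ⊆ {q} ∧ SimpleArc (q :: l)
  | [_] => True
  | [] => False

namespace PolyGraph

variable {V E : Type} (D : PolyGraph V E)

/-- The set of points of an edge. -/
def pts (e : E) : Set Plane := arc (D.line e)

/-- The edges `e` and `f` have the same ends. -/
def Parallel (e f : E) : Prop :=
  (D.fst e = D.fst f ∧ D.snd e = D.snd f) ∨ (D.fst e = D.snd f ∧ D.snd e = D.fst f)

/-- The edges `e` and `f` have a common end. -/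
def Adjacent (e f : E) : Prop :=
  D.fst e = D.fst f ∨ D.fst e = D.snd f ∨ D.snd e = D.fst f ∨ D.snd e = D.snd f

/-- `q` is a common point of `e` and `f` that is not a vertex. -/
def CrossAt (e f : E) (q : Plane) : Prop :=
  q ∈ D.pts e ∧ q ∈ D.pts f ∧ ∀ v, q ≠ D.pos v

/-- The edges `e` and `f` cross. -/
def Crosses (e f : E) : Prop := ∃ q, D.CrossAt e f q

/-- A simple drawing with polygonal edges: vertices are distinct points; edges are simple polygonal
arcs joining their (distinct) ends and passing through no other vertex; common points of two edges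
are vertices or proper crossings; edges with a common end do not cross, and two edges cross at most
once. -/
structure IsDrawing : Prop where
  inj : Function.Injective D.pos
  ne : ∀ e, D.fst e ≠ D.snd e
  head : ∀ e, (D.line e).head? = some (D.pos (D.fst e))
  last : ∀ e, (D.line e).getLast? = some (D.pos (D.snd e))
  simple : ∀ e, SimpleArc (D.line e)
  avoid : ∀ e v, D.pos v ∈ D.pts e → v = D.fst e ∨ v = D.snd e
  proper : ∀ e f, e ≠ f → ∀ q, D.CrossAt e f q → ProperCross (D.line e) (D.line f) q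
  adj : ∀ e f, e ≠ f → D.Adjacent e f → ¬ D.Crosses e f
  once : ∀ e f, e ≠ f → ∀ q q', D.CrossAt e f q → D.CrossAt e f q' → q = q'

/-- The closed curve formed by `e` and `f` separates two vertices, so that both of its regions
contain a vertex. -/
def NonHomotopic (e f : E) : Prop :=
  ∃ u v, D.pos u ∉ D.pts e ∪ D.pts f ∧ D.pos v ∉ D.pts e ∪ D.pts f ∧
    ¬ JoinedIn (D.pts e ∪ D.pts f)ᶜ (D.pos u) (D.pos v)

/-- The topological graph formed by the edges in `S` is `k`-plane. -/
def KPlane (S : Set E) (k : ℕ) : Prop :=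
  ∀ e ∈ S, {f | f ∈ S ∧ f ≠ e ∧ D.Crosses e f}.encard ≤ k

/-- An optimal 3-plane graph: a 3-plane topological graph without homotopic parallel edges (and
without self-loops) with exactly `5.5 n - 11` edges. -/
def OptimalThreePlane [Fintype V] [Fintype E] : Prop :=
  D.IsDrawing ∧ (∀ e f, e ≠ f → D.Parallel e f → D.NonHomotopic e f) ∧
    D.KPlane Set.univ 3 ∧ 2 * Fintype.card E + 22 = 11 * Fintype.card V

/-- The simple graph of the pairs of vertices joined by an edge of `S`. -/
def graph (S : Set E) : SimpleGraph V where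
  Adj u v := u ≠ v ∧ ∃ e ∈ S, (D.fst e = u ∧ D.snd e = v) ∨ (D.fst e = v ∧ D.snd e = u)
  symm := by
    constructor
    rintro u v ⟨h, e, he, h'⟩
    exact ⟨h.symm, e, he, h'.symm⟩
  loopless := ⟨fun u h => h.1 rfl⟩

/-- The edges of `S` form a forest: there are no two parallel edges (and no self-loop) and no
cycle. -/
def IsForest (S : Set E) : Prop :=
  (∀ e ∈ S, D.fst e ≠ D.snd e) ∧ (∀ e ∈ S, ∀ f ∈ S, D.Parallel e f → e = f) ∧
    (D.graph S).IsAcyclic

end PolyGraph

/-! ### The drawing -/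

def P : Fin 14 → IP := ![(0, 100), (0, -100), (-120, 0), (-24, 0), (72, 0), (-59, 23), (23, 23), (97, 23), (-72, 0), (24, 0), (120, 0), (-59, -23), (23, -23), (97, -23)]

def dl : List (Fin 14 × Fin 14 × List IP) := [
  (0, 2, [(0, 100), (-120, 0)]),
  (2, 1, [(-120, 0), (0, -100)]),
  (0, 5, [(0, 100), (-59, 23)]),
  (5, 8, [(-59, 23), (-72, 0)]),
  (8, 11, [(-72, 0), (-59, -23)]),
  (11, 1, [(-59, -23), (0, -100)]),
  (0, 3, [(0, 100), (-24, 0)]),
  (3, 1, [(-24, 0), (0, -100)]),
  (0, 6, [(0, 100), (23, 23)]),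
  (6, 9, [(23, 23), (24, 0)]),
  (9, 12, [(24, 0), (23, -23)]),
  (12, 1, [(23, -23), (0, -100)]),
  (0, 4, [(0, 100), (72, 0)]),
  (4, 1, [(72, 0), (0, -100)]),
  (0, 7, [(0, 100), (97, 23)]),
  (7, 10, [(97, 23), (120, 0)]),
  (10, 13, [(120, 0), (97, -23)]),
  (13, 1, [(97, -23), (0, -100)]),
  (0, 1, [(0, 100), (-117, 0), (0, -100)]),
  (2, 5, [(-120, 0), (-59, 23)]),
  (2, 11, [(-120, 0), (-59, -23)]),
  (8, 0, [(-72, 0), (-61, 32), (0, 100)]),
  (8, 1, [(-72, 0), (-61, -32), (0, -100)]),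
  (5, 11, [(-59, 23), (-74, 0), (-59, -23)]),
  (0, 11, [(0, 100), (-85, 9), (-59, -23)]),
  (1, 5, [(0, -100), (-85, -9), (-59, 23)]),
  (0, 1, [(0, 100), (-27, 0), (0, -100)]),
  (3, 5, [(-24, 0), (-59, 23)]),
  (3, 11, [(-24, 0), (-59, -23)]),
  (8, 0, [(-72, 0), (0, 100)]),
  (8, 1, [(-72, 0), (0, -100)]),
  (5, 11, [(-59, 23), (-59, -23)]),
  (0, 11, [(0, 100), (-59, -23)]),
  (1, 5, [(0, -100), (-59, 23)]),
  (0, 1, [(0, 100), (-21, 0), (0, -100)]),
  (3, 6, [(-24, 0), (23, 23)]),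
  (3, 12, [(-24, 0), (23, -23)]),
  (9, 0, [(24, 0), (0, 100)]),
  (9, 1, [(24, 0), (0, -100)]),
  (6, 12, [(23, 23), (23, -23)]),
  (0, 12, [(0, 100), (23, -23)]),
  (1, 6, [(0, -100), (23, 23)]),
  (0, 1, [(0, 100), (69, 0), (0, -100)]),
  (4, 6, [(72, 0), (23, 23)]),
  (4, 12, [(72, 0), (23, -23)]),
  (9, 0, [(24, 0), (25, 32), (0, 100)]),
  (9, 1, [(24, 0), (25, -32), (0, -100)]),
  (6, 12, [(23, 23), (26, 0), (23, -23)]),
  (0, 12, [(0, 100), (37, 9), (23, -23)]),
  (1, 6, [(0, -100), (37, -9), (23, 23)]),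
  (0, 1, [(0, 100), (75, 0), (0, -100)]),
  (4, 7, [(72, 0), (97, 23)]),
  (4, 13, [(72, 0), (97, -23)]),
  (10, 0, [(120, 0), (0, 100)]),
  (10, 1, [(120, 0), (0, -100)]),
  (7, 13, [(97, 23), (97, -23)]),
  (0, 13, [(0, 100), (97, -23)]),
  (1, 7, [(0, -100), (97, 23)]),
  (0, 1, [(0, 100), (-123, 0), (0, -100)]),
  (2, 7, [(-120, 0), (-168, 1000), (97, 23)]),
  (2, 13, [(-120, 0), (-168, -1000), (97, -23)]),
  (10, 0, [(120, 0), (99, 32), (0, 100)]),
  (10, 1, [(120, 0), (99, -32), (0, -100)]),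
  (7, 13, [(97, 23), (122, 0), (97, -23)]),
  (0, 13, [(0, 100), (133, 9), (97, -23)]),
  (1, 7, [(0, -100), (133, -9), (97, 23)])]

def info (e : ℕ) : Fin 14 × Fin 14 × List IP := dl.getD e (0, 0, [])

/-- The drawing. -/
noncomputable def D : PolyGraph (Fin 14) (Fin 66) where
  pos v := cc (P v)
  fst e := (info e).1
  snd e := (info e).2.1
  line e := (info e).2.2.map cc

def vl : List IP := (List.finRange 14).map P

def ends (e : ℕ) : List (Fin 14) := [(info e).1, (info e).2.1]

/-- crossing pairs among the eight chords of a face, in the order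
`ab, mx, mz, ya, yb, xz, az, bx` -/
def X (k l : ℕ) : Bool :=
  (k, l) ∈ [(0, 1), (0, 2), (1, 3), (1, 6), (2, 4), (2, 7), (3, 5), (3, 7), (4, 5), (4, 6), (6, 7),
    (1, 0), (2, 0), (3, 1), (6, 1), (4, 2), (7, 2), (5, 3), (7, 3), (5, 4), (6, 4), (7, 6)]

/-- crossing pairs -/
def tab (e f : ℕ) : Bool :=
  decide (18 ≤ e) && decide (18 ≤ f) && decide ((e - 18) / 8 = (f - 18) / 8) &&
    X ((e - 18) % 8) ((f - 18) % 8)

def adjB (e f : ℕ) : Bool := (ends e).any fun v => decide (v ∈ ends f)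

def pairOK (e f : ℕ) : Bool :=
  if tab e f then oneB (info e).2.2 (info f).2.2 && !adjB e f
  else noneB vl (info e).2.2 (info f).2.2

def allPairs : Bool := (List.range 66).all fun f => (List.range f).all fun e => pairOK e f

set_option maxRecDepth 1000000 in
theorem allPairs_ok : allPairs = true := by decide +kernel

/-- the vertex `v` is off the lines of the segments of `l` -/
def offB (v : IP) (l : List IP) : Bool := (segs l).all fun s => decide (oi s.1 s.2 v ≠ 0)

def simpB : List IP → Bool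
  | [p, q] => decide (p ≠ q)
  | [p, q, r] => decide (p ≠ q) && decide (q ≠ r) && decide (oi q p r ≠ 0)
  | _ => false

def edgeOK (e : ℕ) : Bool :=
  decide ((info e).1 ≠ (info e).2.1) && decide ((info e).2.2.head? = some (P (info e).1)) &&
    decide ((info e).2.2.getLast? = some (P (info e).2.1)) && simpB (info e).2.2 &&
    (List.finRange 14).all fun v => decide (v ∈ ends e) || offB (P v) (info e).2.2

def allEdges : Bool := (List.range 66).all edgeOK

set_option maxRecDepth 1000000 in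
theorem allEdges_ok : allEdges = true := by decide +kernel

theorem edge_ok (e : Fin 66) : edgeOK e = true := by
  have h := allEdges_ok
  unfold allEdges at h
  rw [List.all_eq_true] at h
  exact h e (List.mem_range.2 e.2)

theorem pair_ok {e f : Fin 66} (h : e < f) : pairOK e f = true := by
  have h1 := allPairs_ok
  unfold allPairs at h1
  rw [List.all_eq_true] at h1
  have h2 := h1 f (List.mem_range.2 f.2)
  rw [List.all_eq_true] at h2
  exact h2 e (List.mem_range.2 h)

theorem tab_symm : ∀ e f : Fin 66, tab e f = tab f e := by decide +kernel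

theorem P_inj : Function.Injective P := by decide

theorem mem_vl {v : IP} (h : v ∈ vl) : ∃ u, cc v = D.pos u := by
  unfold vl at h
  obtain ⟨u, -, rfl⟩ := List.mem_map.1 h
  exact ⟨u, rfl⟩

theorem pts_eq (e : Fin 66) : D.pts e = ar (info e).2.2 := rfl

theorem adjB_iff (e f : Fin 66) : adjB e f = true ↔ D.Adjacent e f := by
  unfold adjB ends PolyGraph.Adjacent
  show _ ↔ (info e).1 = (info f).1 ∨ (info e).1 = (info f).2.1 ∨ (info e).2.1 = (info f).1 ∨
    (info e).2.1 = (info f).2.1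
  simp only [List.any_cons, List.any_nil, Bool.or_false, Bool.or_eq_true, decide_eq_true_eq,
    List.mem_cons, List.not_mem_nil, or_false]
  tauto

theorem avoid (e : Fin 66) (v : Fin 14) (h : D.pos v ∈ D.pts e) : v = D.fst e ∨ v = D.snd e := by
  by_contra hcon
  have h1 := edge_ok e
  unfold edgeOK at h1
  simp only [Bool.and_eq_true, List.all_eq_true] at h1
  have h2 := h1.2 v (List.mem_finRange v)
  rw [Bool.or_eq_true, decide_eq_true_eq] at h2
  rcases h2 with h2 | h2
  · apply hcon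
    unfold ends at h2
    have h3 : v = (info e).1 ∨ v = (info e).2.1 := by simpa using h2
    exact h3
  · rw [pts_eq, mem_ar] at h
    obtain ⟨s, hs, hx⟩ := h
    unfold offB at h2
    rw [List.all_eq_true] at h2
    have h3 := h2 s hs
    rw [decide_eq_true_eq] at h3
    have h4 := ori_zero_of_mem hx
    change ori (cc s.1) (cc s.2) (cc (P v)) = 0 at h4
    rw [ori_cc] at h4
    exact h3 (by exact_mod_cast h4)

/-- edges outside the table do not cross -/
theorem not_cross {e f : Fin 66} (hne : e ≠ f) (h : tab e f = false) : ¬ D.Crosses e f := by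
  rintro ⟨q, h1, h2, h3⟩
  rcases lt_or_gt_of_ne hne with hlt | hlt
  · have hp := pair_ok hlt
    unfold pairOK at hp
    rw [if_neg (by rw [h]; decide)] at hp
    obtain ⟨v, hv, e1⟩ := noneB_spec hp h1 h2
    obtain ⟨u, hu⟩ := mem_vl hv
    exact h3 u (e1.trans hu)
  · have hp := pair_ok hlt
    unfold pairOK at hp
    rw [if_neg (by rw [tab_symm, h]; decide)] at hp
    obtain ⟨v, hv, e1⟩ := noneB_spec hp h2 h1
    obtain ⟨u, hu⟩ := mem_vl hv
    exact h3 u (e1.trans hu)

theorem cross_one {e f : Fin 66} (hne : e ≠ f) (h : tab e f = true) :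
    ¬ D.Adjacent e f ∧ ∃ x, (x ∈ D.pts e ∧ x ∈ D.pts f ∧ ProperCross (D.line e) (D.line f) x) ∧
      ∀ y, y ∈ D.pts e → y ∈ D.pts f → y = x := by
  have hadj : D.Adjacent e f ↔ D.Adjacent f e := by
    unfold PolyGraph.Adjacent
    constructor <;> rintro (h | h | h | h) <;> simp [h]
  rcases lt_or_gt_of_ne hne with hlt | hlt
  · have hp := pair_ok hlt
    unfold pairOK at hp
    rw [if_pos h, Bool.and_eq_true, Bool.not_eq_true'] at hp
    refine ⟨?_, oneB_spec hp.1⟩
    rw [← adjB_iff, hp.2]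
    decide
  · have hp := pair_ok hlt
    unfold pairOK at hp
    rw [if_pos (by rw [tab_symm]; exact h), Bool.and_eq_true, Bool.not_eq_true'] at hp
    refine ⟨?_, ?_⟩
    · rw [hadj, ← adjB_iff, hp.2]
      decide
    · obtain ⟨x, ⟨h1, h2, s, hs, t, ht, a, b, c⟩, h4⟩ := oneB_spec hp.1
      refine ⟨x, ⟨h2, h1, t, ht, s, hs, b, a, ?_⟩, fun y hy hy' => h4 y hy' hy⟩
      intro h0
      apply c
      unfold cross at h0 ⊢
      linarith

theorem crosses_of_tab {e f : Fin 66} (hne : e ≠ f) (h : tab e f = true) : D.Crosses e f := by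
  obtain ⟨hadj, x, ⟨h1, h2, -⟩, -⟩ := cross_one hne h
  refine ⟨x, h1, h2, ?_⟩
  rintro v rfl
  apply hadj
  unfold PolyGraph.Adjacent
  rcases avoid e v h1 with h3 | h3 <;> rcases avoid f v h2 with h4 | h4 <;>
    simp [← h3, ← h4]

theorem tab_of_crosses {e f : Fin 66} (hne : e ≠ f) (h : D.Crosses e f) : tab e f = true := by
  by_contra hcon
  exact not_cross hne (by simpa using hcon) h

theorem simpB_spec : ∀ {l : List IP}, simpB l = true → SimpleArc (l.map cc) := by
  intro l h
  match l, h with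
  | [p, q], h =>
    simp only [simpB, decide_eq_true_eq] at h
    refine ⟨fun h' => h (cc_inj h'), ?_, trivial⟩
    rintro x ⟨-, s, hs, -⟩
    simp [segs] at hs
  | [p, q, r], h =>
    simp only [simpB, Bool.and_eq_true, decide_eq_true_eq] at h
    obtain ⟨⟨h1, h2⟩, h3⟩ := h
    refine ⟨fun h' => h1 (cc_inj h'), ?_, fun h' => h2 (cc_inj h'), ?_, trivial⟩
    · rintro x ⟨hx, s, hs, hx'⟩
      simp only [List.map_cons, List.map_nil, segs, List.tail_cons, List.zip_cons_cons,
        List.zip_nil_right, List.mem_singleton] at hs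
      rw [hs] at hx'
      rw [segment_symm] at hx
      refine common (q := cc p) (r := cc r) ?_ hx hx'
      rw [ori_cc]
      exact_mod_cast h3
    · rintro x ⟨-, s, hs, -⟩
      simp [segs] at hs

theorem isDrawing : D.IsDrawing where
  inj := fun u v h => P_inj (cc_inj h)
  ne := by
    intro e
    have h := edge_ok e
    unfold edgeOK at h
    simp only [Bool.and_eq_true, decide_eq_true_eq] at h
    exact h.1.1.1.1
  head := by
    intro e
    have h := edge_ok e
    unfold edgeOK at h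
    simp only [Bool.and_eq_true, decide_eq_true_eq] at h
    show ((info e).2.2.map cc).head? = some (cc (P (info e).1))
    rw [List.head?_map, h.1.1.1.2]
    rfl
  last := by
    intro e
    have h := edge_ok e
    unfold edgeOK at h
    simp only [Bool.and_eq_true, decide_eq_true_eq] at h
    show ((info e).2.2.map cc).getLast? = some (cc (P (info e).2.1))
    rw [List.getLast?_map, h.1.1.2]
    rfl
  simple := by
    intro e
    have h := edge_ok e
    unfold edgeOK at h
    simp only [Bool.and_eq_true] at h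
    exact simpB_spec h.1.2
  avoid := avoid
  proper := by
    intro e f hne q hq
    obtain ⟨-, x, ⟨-, -, h⟩, h2⟩ := cross_one hne (tab_of_crosses hne ⟨q, hq⟩)
    rw [h2 q hq.1 hq.2.1]
    exact h
  adj := by
    intro e f hne hadj hc
    exact (cross_one hne (tab_of_crosses hne hc)).1 hadj
  once := by
    intro e f hne q q' hq hq'
    obtain ⟨-, x, -, h2⟩ := cross_one hne (tab_of_crosses hne ⟨q, hq⟩)
    rw [h2 q hq.1 hq.2.1, h2 q' hq'.1 hq'.2.1]

theorem tab_count : ∀ e : Fin 66, (Finset.univ.filter fun f : Fin 66 => tab e f = true).card ≤ 3 := by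
  decide +kernel

theorem kplane : D.KPlane Set.univ 3 := by
  intro e _
  have hsub : {f | f ∈ (Set.univ : Set (Fin 66)) ∧ f ≠ e ∧ D.Crosses e f} ⊆
      ((Finset.univ.filter fun f : Fin 66 => tab e f = true : Finset (Fin 66)) : Set (Fin 66)) := by
    rintro f ⟨-, hne, hc⟩
    rw [Finset.mem_coe, Finset.mem_filter]
    exact ⟨Finset.mem_univ _, tab_of_crosses (Ne.symm hne) hc⟩
  refine (Set.encard_le_encard hsub).trans ?_
  rw [Set.encard_coe_eq_coe_finsetCard]
  exact_mod_cast tab_count e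

/-! ### No homotopic parallel edges -/

def inTri (p q r u : IP) : Bool :=
  decide (0 < oi p q u) && decide (0 < oi q r u) && decide (0 < oi r p u)

def triOK (u w : IP) : List IP → List IP → Bool
  | [p, q], [p', r, q'] => decide (p' = p) && decide (q' = q) &&
      ((decide (0 < oi p q r) && inTri p q r u && !inTri p q r w) ||
        (decide (0 < oi q p r) && inTri q p r u && !inTri q p r w))
  | _, _ => false

def lensOK (u w : IP) : List IP → List IP → Bool
  | [a, (X₁, y₁), b], [a', (X₂, y₂), b'] =>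
      decide (a = (0, 100)) && decide (b = (0, -100)) && decide (a' = (0, 100)) &&
      decide (b' = (0, -100)) && decide (y₁ = 0) && decide (y₂ = 0) && decide (X₁ < X₂) &&
      decide (X₁ * (100 - |u.2|) < 100 * u.1) && decide (100 * u.1 < X₂ * (100 - |u.2|)) &&
      !(decide (X₁ * (100 - |w.2|) < 100 * w.1) && decide (100 * w.1 < X₂ * (100 - |w.2|)))
  | _, _ => false

theorem inTri_iff (p q r u : IP) : inTri p q r u = true ↔
    cc u ∈ {x | 0 < ori (cc p) (cc q) x ∧ 0 < ori (cc q) (cc r) x ∧ 0 < ori (cc r) (cc p) x} := by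
  unfold inTri
  simp only [Bool.and_eq_true, decide_eq_true_eq, Set.mem_ofPred_eq, ori_cc, Int.cast_pos, and_assoc]

theorem ar_two {p q : IP} : segment ℝ (cc p) (cc q) ⊆ ar [p, q] := by
  intro x hx
  exact mem_ar.2 ⟨(p, q), by simp [segs], hx⟩

theorem ar_three {p q r : IP} :
    segment ℝ (cc p) (cc q) ⊆ ar [p, q, r] ∧ segment ℝ (cc q) (cc r) ⊆ ar [p, q, r] := by
  constructor
  · intro x hx
    exact mem_ar.2 ⟨(p, q), by simp [segs], hx⟩
  · intro x hx
    exact mem_ar.2 ⟨(q, r), by simp [segs], hx⟩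

theorem triOK_spec {u w : IP} {l l' : List IP} (h : triOK u w l l' = true) {C : Set Plane}
    (h1 : ar l ⊆ C) (h2 : ar l' ⊆ C) : ¬ JoinedIn Cᶜ (cc u) (cc w) := by
  match l, l', h with
  | [p, q], [p', r, q'], h =>
    simp only [triOK, Bool.and_eq_true, decide_eq_true_eq, Bool.or_eq_true] at h
    obtain ⟨⟨rfl, rfl⟩, h⟩ := h
    have s1 := ar_two.trans h1
    have s2 := (ar_three (p := p') (q := r) (r := q')).1.trans h2
    have s3 := (ar_three (p := p') (q := r) (r := q')).2.trans h2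
    rcases h with ⟨⟨a, b⟩, c⟩ | ⟨⟨a, b⟩, c⟩
    · refine not_joined (tri_open (cc p') (cc q') (cc r)) (tri_frontier ?_ s1 ?_ ?_)
        ((inTri_iff _ _ _ _).1 b) ?_
      · rw [ori_cc]; exact_mod_cast a
      · rw [segment_symm]; exact s3
      · rw [segment_symm]; exact s2
      · intro hc
        rw [(inTri_iff _ _ _ _).2 hc] at c
        exact absurd c (by decide)
    · refine not_joined (tri_open (cc q') (cc p') (cc r)) (tri_frontier ?_ ?_ s2 s3)
        ((inTri_iff _ _ _ _).1 b) ?_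
      · rw [ori_cc]; exact_mod_cast a
      · rw [segment_symm]; exact s1
      · intro hc
        rw [(inTri_iff _ _ _ _).2 hc] at c
        exact absurd c (by decide)

theorem lensOK_spec {u w : IP} {l l' : List IP} (h : lensOK u w l l' = true) {C : Set Plane}
    (h1 : ar l ⊆ C) (h2 : ar l' ⊆ C) : ¬ JoinedIn Cᶜ (cc u) (cc w) := by
  match l, l', h with
  | [a, (X₁, y₁), b], [a', (X₂, y₂), b'], h =>
    simp only [lensOK, Bool.and_eq_true, decide_eq_true_eq, Bool.not_eq_true'] at h
    obtain ⟨⟨⟨⟨⟨⟨⟨⟨⟨rfl, rfl⟩, rfl⟩, rfl⟩, rfl⟩, rfl⟩, hX⟩, hu1⟩, hu2⟩, hw⟩ := h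
    have ea : cc ((0 : ℤ), (100 : ℤ)) = ((0 : ℝ), (100 : ℝ)) := by simp [cc]
    have eb : cc ((0 : ℤ), (-100 : ℤ)) = ((0 : ℝ), (-100 : ℝ)) := by simp [cc]
    have ec : ∀ X : ℤ, cc (X, (0 : ℤ)) = ((X : ℝ), (0 : ℝ)) := by intro X; simp [cc]
    have s1 := (ar_three (p := (0, 100)) (q := (X₁, 0)) (r := (0, -100))).1.trans h1
    have s2 := (ar_three (p := (0, 100)) (q := (X₁, 0)) (r := (0, -100))).2.trans h1
    have s3 := (ar_three (p := (0, 100)) (q := (X₂, 0)) (r := (0, -100))).1.trans h2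
    have s4 := (ar_three (p := (0, 100)) (q := (X₂, 0)) (r := (0, -100))).2.trans h2
    rw [ea, ec] at s1 s3
    rw [eb, ec] at s2 s4
    have hX' : (X₁ : ℝ) < X₂ := by exact_mod_cast hX
    refine not_joined (lens_open 100 X₁ X₂)
      (lens_frontier (by norm_num) hX' s1 s2 s3 s4) ?_ ?_
    · constructor
      · show (X₁ : ℝ) * (100 - |(u.2 : ℝ)|) < 100 * (u.1 : ℝ)
        exact_mod_cast hu1
      · show 100 * (u.1 : ℝ) < (X₂ : ℝ) * (100 - |(u.2 : ℝ)|)
        exact_mod_cast hu2
    · rintro ⟨h3, h4⟩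
      change (X₁ : ℝ) * (100 - |(w.2 : ℝ)|) < 100 * (w.1 : ℝ) at h3
      change 100 * (w.1 : ℝ) < (X₂ : ℝ) * (100 - |(w.2 : ℝ)|) at h4
      have h5 : X₁ * (100 - |w.2|) < 100 * w.1 := by exact_mod_cast h3
      have h6 : 100 * w.1 < X₂ * (100 - |w.2|) := by exact_mod_cast h4
      rw [Bool.and_eq_false_iff, decide_eq_false_iff_not, decide_eq_false_iff_not] at hw
      rcases hw with hw | hw
      · exact hw h5
      · exact hw h6

def parB (e f : ℕ) : Bool :=
  (decide ((info e).1 = (info f).1) && decide ((info e).2.1 = (info f).2.1)) ||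
  (decide ((info e).1 = (info f).2.1) && decide ((info e).2.1 = (info f).1))

def homB (e f : ℕ) : Bool :=
  (List.finRange 14).any fun u => (List.finRange 14).any fun w =>
    (!decide (u ∈ ends e)) && (!decide (u ∈ ends f)) && (!decide (w ∈ ends e)) &&
    (!decide (w ∈ ends f)) && (triOK (P u) (P w) (info e).2.2 (info f).2.2 ||
      triOK (P u) (P w) (info f).2.2 (info e).2.2 || lensOK (P u) (P w) (info e).2.2 (info f).2.2 ||
      lensOK (P u) (P w) (info f).2.2 (info e).2.2)

def allHom : Bool :=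
  (List.range 66).all fun f => (List.range f).all fun e => !parB e f || homB e f

set_option maxRecDepth 1000000 in
theorem allHom_ok : allHom = true := by decide +kernel

theorem nonHomotopic_lt {e f : Fin 66} (hlt : e < f) (hp : D.Parallel e f) :
    D.NonHomotopic e f := by
  have h1 := allHom_ok
  unfold allHom at h1
  rw [List.all_eq_true] at h1
  have h2 := h1 f (List.mem_range.2 f.2)
  rw [List.all_eq_true] at h2
  have h3 := h2 e (List.mem_range.2 hlt)
  have h4 : parB e f = true := by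
    unfold parB
    simp only [Bool.or_eq_true, Bool.and_eq_true, decide_eq_true_eq]
    exact hp
  rw [h4, Bool.not_true, Bool.false_or] at h3
  unfold homB at h3
  rw [List.any_eq_true] at h3
  obtain ⟨u, -, h3⟩ := h3
  rw [List.any_eq_true] at h3
  obtain ⟨w, -, h3⟩ := h3
  simp only [Bool.and_eq_true, Bool.not_eq_true', decide_eq_false_iff_not, Bool.or_eq_true] at h3
  obtain ⟨⟨⟨⟨a, b⟩, c⟩, d⟩, h5⟩ := h3
  have hout : ∀ (v : Fin 14) (g : Fin 66), v ∉ ends g → D.pos v ∉ D.pts g := by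
    intro v g hv hmem
    apply hv
    unfold ends
    rcases avoid g v hmem with h | h
    · rw [h]; exact List.mem_cons_self
    · rw [h]; exact List.mem_cons_of_mem _ (List.mem_singleton.2 rfl)
  refine ⟨u, w, ?_, ?_, ?_⟩
  · rintro (h | h)
    · exact hout u e a h
    · exact hout u f b h
  · rintro (h | h)
    · exact hout w e c h
    · exact hout w f d h
  · have s1 : ar (info e).2.2 ⊆ D.pts e ∪ D.pts f := Set.subset_union_left
    have s2 : ar (info f).2.2 ⊆ D.pts e ∪ D.pts f := Set.subset_union_right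
    rcases h5 with ((h | h) | h) | h
    · exact triOK_spec h s1 s2
    · exact triOK_spec h s2 s1
    · exact lensOK_spec h s1 s2
    · exact lensOK_spec h s2 s1

theorem nonHomotopic {e f : Fin 66} (hne : e ≠ f) (hp : D.Parallel e f) :
    D.NonHomotopic e f := by
  rcases lt_or_gt_of_ne hne with hlt | hlt
  · exact nonHomotopic_lt hlt hp
  · have hp' : D.Parallel f e := by
      rcases hp with ⟨a, b⟩ | ⟨a, b⟩
      · exact Or.inl ⟨a.symm, b.symm⟩
      · exact Or.inr ⟨b.symm, a.symm⟩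
    obtain ⟨u, v, h1, h2, h3⟩ := nonHomotopic_lt hlt hp'
    refine ⟨u, v, ?_, ?_, ?_⟩
    · rwa [Set.union_comm]
    · rwa [Set.union_comm]
    · rwa [Set.union_comm]

theorem optimal : D.OptimalThreePlane :=
  ⟨isDrawing, fun _ _ hne hp => nonHomotopic hne hp, kplane, by simp⟩

/-! ### There is no partition -/

/-- the `k`-th chord of the `f`-th face -/
def edge (f : Fin 6) (k : Fin 8) : Fin 66 := ⟨18 + 8 * f + k, by omega⟩

theorem edge_inj {f f' : Fin 6} {k k' : Fin 8} (h : edge f k = edge f' k') : f = f' ∧ k = k' := by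
  unfold edge at h
  rw [Fin.mk.injEq] at h
  constructor <;> ext <;> omega

theorem tab_edge (f : Fin 6) (k l : Fin 8) (h : X k l = true) :
    tab (edge f k) (edge f l) = true := by
  revert f k l
  decide

/-- The sets `T` of chords of a face whose removal leaves a 2-plane drawing: they have at least two
elements, and there are only three of size two. -/
theorem local_sets : ∀ T : Finset (Fin 8),
    (∀ k ∉ T, (Finset.univ.filter fun l : Fin 8 => l ∉ T ∧ X k l = true).card ≤ 2) →
    2 ≤ T.card ∧ (T.card = 2 → T = {1, 2} ∨ T = {3, 4} ∨ T = {6, 7}) := by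
  decide +kernel

theorem X_irrefl : ∀ k : Fin 8, X k k = false := by decide

section

open Classical in
/-- the chords of the face `f` in `S` -/
noncomputable def chords (S : Set (Fin 66)) (f : Fin 6) : Finset (Fin 8) :=
  Finset.univ.filter fun k => edge f k ∈ S

theorem mem_chords {S : Set (Fin 66)} {f : Fin 6} {k : Fin 8} : k ∈ chords S f ↔ edge f k ∈ S := by
  classical
  unfold chords
  rw [Finset.mem_filter]
  exact ⟨fun h => h.2, fun h => ⟨Finset.mem_univ _, h⟩⟩

theorem chords_spec {E₁ E₂ : Set (Fin 66)} (hu : E₁ ∪ E₂ = Set.univ) (hK : D.KPlane E₁ 2)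
    (hd : E₁ ∩ E₂ = ∅) (f : Fin 6) : 2 ≤ (chords E₂ f).card ∧ ((chords E₂ f).card = 2 →
      chords E₂ f = {1, 2} ∨ chords E₂ f = {3, 4} ∨ chords E₂ f = {6, 7}) := by
  have hE₁ : ∀ {k : Fin 8}, k ∉ chords E₂ f → edge f k ∈ E₁ := by
    intro k hk
    have : edge f k ∈ E₁ ∪ E₂ := by rw [hu]; trivial
    rcases this with h | h
    · exact h
    · exact absurd (mem_chords.2 h) hk
  apply local_sets
  intro k hk
  have h1 := hK (edge f k) (hE₁ hk)
  have h2 : (((Finset.univ.filter fun l : Fin 8 => l ∉ chords E₂ f ∧ X k l = true).image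
      (edge f) : Finset (Fin 66)) : Set (Fin 66)) ⊆
      {g | g ∈ E₁ ∧ g ≠ edge f k ∧ D.Crosses (edge f k) g} := by
    intro g hg
    rw [Finset.coe_image] at hg
    obtain ⟨l, hl, rfl⟩ := hg
    rw [Finset.mem_coe, Finset.mem_filter] at hl
    have hne : edge f l ≠ edge f k := by
      intro h
      have := (edge_inj h).2
      rw [this, X_irrefl] at hl
      exact absurd hl.2.2 (by decide)
    exact ⟨hE₁ hl.2.1, hne, crosses_of_tab hne.symm (tab_edge f k l hl.2.2)⟩
  have h3 := (Set.encard_le_encard h2).trans h1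
  rw [Set.encard_coe_eq_coe_finsetCard, Finset.card_image_of_injective _
    (fun a b h => (edge_inj h).2)] at h3
  exact_mod_cast h3

/-- A forest on 14 vertices has at most 13 edges. -/
theorem forest_card {S : Set (Fin 66)} (hS : D.IsForest S) (F : Finset (Fin 66)) (hF : ↑F ⊆ S) :
    F.card ≤ 13 := by
  classical
  obtain ⟨hne, hpar, hac⟩ := hS
  obtain ⟨T, hT1, -, hT⟩ := (SimpleGraph.connected_top (V := Fin 14)).exists_isTree_le_of_le_of_isAcyclic
    (le_top : D.graph S ≤ ⊤) hac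
  have hcard := hT.card_edgeFinset
  rw [Fintype.card_fin] at hcard
  have hle : F.card ≤ T.edgeFinset.card := by
    apply Finset.card_le_card_of_injOn (fun e => s(D.fst e, D.snd e))
    · intro e he
      rw [Finset.mem_coe, SimpleGraph.mem_edgeFinset, SimpleGraph.mem_edgeSet]
      exact hT1 ⟨hne e (hF he), e, hF he, Or.inl ⟨rfl, rfl⟩⟩
    · intro e he f hf h
      apply hpar e (hF he) f (hF hf)
      exact Sym2.eq_iff.1 h
  omega

theorem sum_chords {S : Set (Fin 66)} (hS : D.IsForest S) : ∑ f, (chords S f).card ≤ 13 := by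
  classical
  rw [← Finset.card_sigma]
  have h : ((Finset.univ.sigma fun f => chords S f).image
      (fun x : (_ : Fin 6) × Fin 8 => edge x.1 x.2)).card ≤ 13 := by
    apply forest_card hS
    intro g hg
    rw [Finset.coe_image] at hg
    obtain ⟨⟨f, k⟩, hk, rfl⟩ := hg
    rw [Finset.mem_coe, Finset.mem_sigma] at hk
    exact mem_chords.1 hk.2
  rwa [Finset.card_image_of_injective] at h
  rintro ⟨f, k⟩ ⟨f', k'⟩ h
  obtain ⟨rfl, rfl⟩ := edge_inj h
  rfl

end

/-- Two faces with a common path `a x y z b`, both with two chords in the forest, give a path from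
`a` to `b` in the forest. -/
theorem idx_path {G : SimpleGraph (Fin 14)} (hG : G.IsAcyclic) {a b m m' x y z : Fin 14}
    (hd : [a, b, m, m', x, y, z].Nodup)
    (h1 : (G.Adj m x ∧ G.Adj m z) ∨ (G.Adj y a ∧ G.Adj y b) ∨ (G.Adj a z ∧ G.Adj b x))
    (h2 : (G.Adj m' x ∧ G.Adj m' z) ∨ (G.Adj y a ∧ G.Adj y b) ∨ (G.Adj a z ∧ G.Adj b x))
    (h3 : (G.Adj m x ∧ G.Adj m z) ∨ (G.Adj y a ∧ G.Adj y b) ∨
      (G.Adj m' x ∧ G.Adj m' z) ∨ (G.Adj y a ∧ G.Adj y b)) :
    ∃ p : G.Walk a b, p.IsPath ∧ (p.getVert 1 = y ∨ p.getVert 1 = z) := by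
  simp only [List.nodup_cons, List.mem_cons, List.not_mem_nil, or_false, not_or,
    List.nodup_nil, not_false_eq_true, and_true] at hd
  obtain ⟨⟨ab, am, am', ax, ay, az⟩, ⟨bm, bm', bx, by', bz⟩, ⟨mm', mx, my, mz⟩,
    ⟨m'x, m'y, m'z⟩, ⟨xy, xz⟩, yz⟩ := hd
  have hB : (G.Adj y a ∧ G.Adj y b) →
      ∃ p : G.Walk a b, p.IsPath ∧ (p.getVert 1 = y ∨ p.getVert 1 = z) := by
    rintro ⟨u, v⟩
    refine ⟨.cons u.symm (.cons v .nil), ?_, Or.inl rfl⟩
    simp [SimpleGraph.Walk.cons_isPath_iff, ab, ay, by', Ne.symm by']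
  have hAC : ∀ {n : Fin 14}, a ≠ n → b ≠ n → n ≠ x → n ≠ z → (G.Adj n x ∧ G.Adj n z) →
      (G.Adj a z ∧ G.Adj b x) →
      ∃ p : G.Walk a b, p.IsPath ∧ (p.getVert 1 = y ∨ p.getVert 1 = z) := by
    rintro n an bn nx nz ⟨u, v⟩ ⟨u', v'⟩
    refine ⟨.cons u' (.cons v.symm (.cons u (.cons v'.symm .nil))), ?_, Or.inr rfl⟩
    simp [SimpleGraph.Walk.cons_isPath_iff, ab, an, ax, az, Ne.symm bn, Ne.symm bx, Ne.symm bz,
      nx, Ne.symm nz, Ne.symm xz]
  have hAA : (G.Adj m x ∧ G.Adj m z) → (G.Adj m' x ∧ G.Adj m' z) → False := by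
    rintro ⟨u, v⟩ ⟨u', v'⟩
    have e := hG.path_unique (v := x) (w := z)
      ⟨.cons u.symm (.cons v .nil), by
        simp [SimpleGraph.Walk.cons_isPath_iff, Ne.symm mx, mz, xz]⟩
      ⟨.cons u'.symm (.cons v' .nil), by
        simp [SimpleGraph.Walk.cons_isPath_iff, Ne.symm m'x, m'z, xz]⟩
    have e2 := congrArg (fun p : G.Path x z => p.1.getVert 1) e
    exact mm' e2
  rcases h1 with h1 | h1 | h1
  · rcases h2 with h2 | h2 | h2
    · exact (hAA h1 h2).elim
    · exact hB h2
    · exact hAC am bm mx mz h1 h2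
  · exact hB h1
  · rcases h2 with h2 | h2 | h2
    · exact hAC am' bm' m'x m'z h2 h1
    · exact hB h2
    · rcases h3 with h3 | h3 | h3 | h3
      · exact hAC am bm mx mz h3 h1
      · exact hB h3
      · exact hAC am' bm' m'x m'z h3 h1
      · exact hB h3

theorem adj_edge {S : Set (Fin 66)} {f : Fin 6} {k : Fin 8} (h : k ∈ chords S f) {u v : Fin 14}
    (hu : D.fst (edge f k) = u) (hv : D.snd (edge f k) = v) (huv : u ≠ v) :
    (D.graph S).Adj u v :=
  ⟨huv, edge f k, mem_chords.1 h, Or.inl ⟨hu, hv⟩⟩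

/-- The three paths `a x y z b` with their two faces. -/
theorem path_of {S : Set (Fin 66)} (hS : D.IsForest S) {f g : Fin 6} {m m' x y z : Fin 14}
    (hfg : f ≠ g)
    (hf1 : (D.fst (edge f 1), D.snd (edge f 1)) = (m, x))
    (hf2 : (D.fst (edge f 2), D.snd (edge f 2)) = (m, z))
    (hf3 : (D.fst (edge f 3), D.snd (edge f 3)) = (y, 0))
    (hf4 : (D.fst (edge f 4), D.snd (edge f 4)) = (y, 1))
    (hf6 : (D.fst (edge f 6), D.snd (edge f 6)) = (0, z))
    (hf7 : (D.fst (edge f 7), D.snd (edge f 7)) = (1, x))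
    (hg1 : (D.fst (edge g 1), D.snd (edge g 1)) = (m', x))
    (hg2 : (D.fst (edge g 2), D.snd (edge g 2)) = (m', z))
    (hg3 : (D.fst (edge g 3), D.snd (edge g 3)) = (y, 0))
    (hg4 : (D.fst (edge g 4), D.snd (edge g 4)) = (y, 1))
    (hg6 : (D.fst (edge g 6), D.snd (edge g 6)) = (0, z))
    (hg7 : (D.fst (edge g 7), D.snd (edge g 7)) = (1, x))
    (hd : [0, 1, m, m', x, y, z].Nodup)
    (hF : chords S f = {1, 2} ∨ chords S f = {3, 4} ∨ chords S f = {6, 7})
    (hG : chords S g = {1, 2} ∨ chords S g = {3, 4} ∨ chords S g = {6, 7}) :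
    ∃ p : (D.graph S).Walk 0 1, p.IsPath ∧ (p.getVert 1 = y ∨ p.getVert 1 = z) := by
  have key : ∀ {h : Fin 6} {n : Fin 14},
      (D.fst (edge h 1), D.snd (edge h 1)) = (n, x) →
      (D.fst (edge h 2), D.snd (edge h 2)) = (n, z) →
      (D.fst (edge h 3), D.snd (edge h 3)) = (y, 0) →
      (D.fst (edge h 4), D.snd (edge h 4)) = (y, 1) →
      (D.fst (edge h 6), D.snd (edge h 6)) = (0, z) →
      (D.fst (edge h 7), D.snd (edge h 7)) = (1, x) →
      (chords S h = {1, 2} ∨ chords S h = {3, 4} ∨ chords S h = {6, 7}) →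
      (((D.graph S).Adj n x ∧ (D.graph S).Adj n z) ∨
        ((D.graph S).Adj y 0 ∧ (D.graph S).Adj y 1) ∨
        ((D.graph S).Adj 0 z ∧ (D.graph S).Adj 1 x)) ∧
      (¬ (edge h 6 ∈ S) → (((D.graph S).Adj n x ∧ (D.graph S).Adj n z) ∨
        ((D.graph S).Adj y 0 ∧ (D.graph S).Adj y 1))) := by
    intro h n e1 e2 e3 e4 e6 e7 hc
    have adj : ∀ {k : Fin 8} {u v : Fin 14}, (D.fst (edge h k), D.snd (edge h k)) = (u, v) →
        k ∈ chords S h → (D.graph S).Adj u v := by
      intro k u v e hk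
      rw [Prod.mk.injEq] at e
      exact adj_edge hk e.1 e.2 (by rw [← e.1, ← e.2]; exact isDrawing.ne _)
    rcases hc with hc | hc | hc
    · have h1 : (D.graph S).Adj n x ∧ (D.graph S).Adj n z :=
        ⟨adj e1 (by rw [hc]; decide), adj e2 (by rw [hc]; decide)⟩
      exact ⟨Or.inl h1, fun _ => Or.inl h1⟩
    · have h1 : (D.graph S).Adj y 0 ∧ (D.graph S).Adj y 1 :=
        ⟨adj e3 (by rw [hc]; decide), adj e4 (by rw [hc]; decide)⟩
      exact ⟨Or.inr (Or.inl h1), fun _ => Or.inr h1⟩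
    · refine ⟨Or.inr (Or.inr ⟨adj e6 (by rw [hc]; decide), adj e7 (by rw [hc]; decide)⟩), ?_⟩
      intro h6
      exact absurd (mem_chords.1 (show (6 : Fin 8) ∈ chords S h by rw [hc]; decide)) h6
  obtain ⟨a1, a2⟩ := key hf1 hf2 hf3 hf4 hf6 hf7 hF
  obtain ⟨b1, b2⟩ := key hg1 hg2 hg3 hg4 hg6 hg7 hG
  refine idx_path hS.2.2 hd a1 b1 ?_
  by_cases h6 : edge f 6 ∈ S
  · by_cases h6' : edge g 6 ∈ S
    · exfalso
      rw [Prod.mk.injEq] at hf6 hg6
      have := hS.2.1 _ h6 _ h6' (Or.inl ⟨hf6.1.trans hg6.1.symm, hf6.2.trans hg6.2.symm⟩)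
      exact hfg (edge_inj this).1
    · rcases b2 h6' with h | h
      · exact Or.inr (Or.inr (Or.inl h))
      · exact Or.inr (Or.inl h)
  · rcases a2 h6 with h | h
    · exact Or.inl h
    · exact Or.inr (Or.inl h)

/-- No two of the three paths can exist. -/
theorem two_paths {S : Set (Fin 66)} (hS : D.IsForest S) {y z y' z' : Fin 14}
    (h : ∃ p : (D.graph S).Walk 0 1, p.IsPath ∧ (p.getVert 1 = y ∨ p.getVert 1 = z))
    (h' : ∃ p : (D.graph S).Walk 0 1, p.IsPath ∧ (p.getVert 1 = y' ∨ p.getVert 1 = z'))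
    (e1 : y ≠ y') (e2 : y ≠ z') (e3 : z ≠ y') (e4 : z ≠ z') : False := by
  obtain ⟨p, hp, h1⟩ := h
  obtain ⟨q, hq, h2⟩ := h'
  have e := hS.2.2.path_unique ⟨p, hp⟩ ⟨q, hq⟩
  have e5 : p = q := congrArg Subtype.val e
  rw [← e5] at h2
  rcases h1 with h1 | h1 <;> rcases h2 with h2 | h2 <;> rw [h1] at h2
  exacts [e1 h2, e2 h2, e3 h2, e4 h2]

theorem no_partition {E₁ E₂ : Set (Fin 66)} (hu : E₁ ∪ E₂ = Set.univ) (hd : E₁ ∩ E₂ = ∅)
    (hK : D.KPlane E₁ 2) (hS : D.IsForest E₂) : False := by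
  have hc := chords_spec hu hK hd
  have hsum := sum_chords hS
  rw [Fin.sum_univ_six] at hsum
  have c0 := (hc 0).1
  have c1 := (hc 1).1
  have c2 := (hc 2).1
  have c3 := (hc 3).1
  have c4 := (hc 4).1
  have c5 := (hc 5).1
  have p0 : (chords E₂ 0).card = 2 → (chords E₂ 1).card = 2 →
      ∃ p : (D.graph E₂).Walk 0 1, p.IsPath ∧ (p.getVert 1 = 8 ∨ p.getVert 1 = 11) := fun a b =>
    path_of hS (f := 0) (g := 1) (m := 2) (m' := 3) (x := 5) (y := 8) (z := 11) (by decide)
      rfl rfl rfl rfl rfl rfl rfl rfl rfl rfl rfl rfl (by decide) ((hc 0).2 a) ((hc 1).2 b)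
  have p1 : (chords E₂ 2).card = 2 → (chords E₂ 3).card = 2 →
      ∃ p : (D.graph E₂).Walk 0 1, p.IsPath ∧ (p.getVert 1 = 9 ∨ p.getVert 1 = 12) := fun a b =>
    path_of hS (f := 2) (g := 3) (m := 3) (m' := 4) (x := 6) (y := 9) (z := 12) (by decide)
      rfl rfl rfl rfl rfl rfl rfl rfl rfl rfl rfl rfl (by decide) ((hc 2).2 a) ((hc 3).2 b)
  have p2 : (chords E₂ 4).card = 2 → (chords E₂ 5).card = 2 →
      ∃ p : (D.graph E₂).Walk 0 1, p.IsPath ∧ (p.getVert 1 = 10 ∨ p.getVert 1 = 13) := fun a b =>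
    path_of hS (f := 4) (g := 5) (m := 4) (m' := 2) (x := 7) (y := 10) (z := 13) (by decide)
      rfl rfl rfl rfl rfl rfl rfl rfl rfl rfl rfl rfl (by decide) ((hc 4).2 a) ((hc 5).2 b)
  have hcases : ((chords E₂ 0).card = 2 ∧ (chords E₂ 1).card = 2 ∧ (chords E₂ 2).card = 2 ∧
      (chords E₂ 3).card = 2) ∨ ((chords E₂ 0).card = 2 ∧ (chords E₂ 1).card = 2 ∧
      (chords E₂ 4).card = 2 ∧ (chords E₂ 5).card = 2) ∨ ((chords E₂ 2).card = 2 ∧
      (chords E₂ 3).card = 2 ∧ (chords E₂ 4).card = 2 ∧ (chords E₂ 5).card = 2) := by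
    omega
  rcases hcases with ⟨a, b, c, d⟩ | ⟨a, b, c, d⟩ | ⟨a, b, c, d⟩
  · exact two_paths hS (p0 a b) (p1 c d) (by decide) (by decide) (by decide) (by decide)
  · exact two_paths hS (p0 a b) (p2 c d) (by decide) (by decide) (by decide) (by decide)
  · exact two_paths hS (p1 a b) (p2 c d) (by decide) (by decide) (by decide) (by decide)

/-- **Q1: no.** Some optimal 3-plane graph has no edge partition into a 2-plane graph and a
forest. -/
theorem result : ∃ (n m : ℕ) (D : PolyGraph (Fin n) (Fin m)), D.OptimalThreePlane ∧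
    ¬ ∃ E₁ E₂ : Set (Fin m), E₁ ∪ E₂ = Set.univ ∧ E₁ ∩ E₂ = ∅ ∧ D.KPlane E₁ 2 ∧
      D.IsForest E₂ := by
  refine ⟨14, 66, D, optimal, ?_⟩
  rintro ⟨E₁, E₂, hu, hd, hK, hS⟩
  exact no_partition hu hd hK hS

end Pool.Agent.Results.MP_d99f1b_co.NoForest
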